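import Pool.Agent.Lib_MP_eb89b3_co.Data

set_option autoImplicit false

namespace Pool.Agent.PMMS

lemma valR_eq (i t n : ℕ) :
    valR i t n = ∑ g ∈ Finset.range n, if t.testBit g = true then w i g else 0 := by
  induction n with
  | zero => simp [valR]
  | succ n ih =>
    rw [valR, ih, Finset.sum_range_succ]
    congr 1
    cases h : t.testBit n <;> simp

lemma certAll_spec (n : ℕ) (h : certAll n = true) :
    ∀ z, z < n → ∀ i, i < 3 → cert1 i z = true := by
  induction n with
  | zero => intro z hz; omega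
  | succ n ih =>
    rw [certAll, Bool.and_eq_true, Bool.and_eq_true, Bool.and_eq_true] at h
    obtain ⟨h0, h1, h2, h3⟩ := h
    intro z hz i hi
    rcases Nat.lt_succ_iff_lt_or_eq.mp hz with hz | rfl
    · exact ih h3 z hz i hi
    · have : i = 0 ∨ i = 1 ∨ i = 2 := by omega
      rcases this with rfl | rfl | rfl
      · exact h0
      · exact h1
      · exact h2

/-- mask of the goods of agent `k` -/
def mk (A : ℕ → ℕ) (k n : ℕ) : ℕ := ∑ g ∈ Finset.range n, if A g = k then 2 ^ g else 0

/-- value of the goods of agent `k` for agent `k` -/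
def sk (A : ℕ → ℕ) (k n : ℕ) : ℕ := ∑ g ∈ Finset.range n, if A g = k then w k g else 0

lemma mk_succ (A : ℕ → ℕ) (k n : ℕ) :
    mk A k (n + 1) = (if A n = k then 2 ^ n else 0) + mk A k n := by
  rw [mk, Finset.sum_range_succ, add_comm]; rfl

lemma sk_succ (A : ℕ → ℕ) (k n : ℕ) :
    sk A k (n + 1) = (if A n = k then w k n else 0) + sk A k n := by
  rw [sk, Finset.sum_range_succ, add_comm]; rfl

lemma mk_lt (A : ℕ → ℕ) (k n : ℕ) : mk A k n < 2 ^ n := by
  induction n with
  | zero => simp [mk]
  | succ n ih =>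
    rw [mk_succ, pow_succ]
    split_ifs <;> omega

lemma mk_testBit (A : ℕ → ℕ) (k n g : ℕ) (hg : g < n) :
    (mk A k n).testBit g = decide (A g = k) := by
  induction n with
  | zero => omega
  | succ n ih =>
    rw [mk_succ]
    have hlt := mk_lt A k n
    have key : (if A n = k then 2 ^ n else 0) + mk A k n =
        2 ^ n * (if A n = k then 1 else 0) + mk A k n := by
      split_ifs <;> simp
    rw [key, Nat.testBit_two_pow_mul_add _ hlt]
    rcases Nat.lt_succ_iff_lt_or_eq.mp hg with h | rfl
    · rw [if_pos h]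
      exact ih h
    · rw [if_neg (lt_irrefl _), Nat.sub_self]
      split_ifs with h1 <;> simp [h1]

lemma chk_spec (A : ℕ → ℕ) (hA : ∀ g, A g = 0 ∨ A g = 1 ∨ A g = 2) (n : ℕ) :
    ∀ x y z a b c, chk n x y z a b c = true →
      tst (x + mk A 0 n) (y + mk A 1 n) (z + mk A 2 n) (a + sk A 0 n) (b + sk A 1 n)
        (c + sk A 2 n) = true := by
  induction n with
  | zero =>
    intro x y z a b c h
    simpa [mk, sk, chk] using h
  | succ n ih =>
    intro x y z a b c h
    rw [chk, Bool.and_eq_true, Bool.and_eq_true] at h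
    obtain ⟨h0, h1, h2⟩ := h
    rw [mk_succ, mk_succ, mk_succ, sk_succ, sk_succ, sk_succ]
    rcases hA n with h | h | h
    · have := ih _ _ _ _ _ _ h0
      simpa [h, add_assoc] using this
    · have := ih _ _ _ _ _ _ h1
      simpa [h, add_assoc] using this
    · have := ih _ _ _ _ _ _ h2
      simpa [h, add_assoc] using this

/-- extension of an allocation to all natural numbers -/
def ext (A : Fin 9 → Fin 3) (g : ℕ) : ℕ := if h : g < 9 then (A ⟨g, h⟩ : ℕ) else 0

lemma ext_fin (A : Fin 9 → Fin 3) (g : Fin 9) : ext A g = A g := by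
  rw [ext, dif_pos g.2]

lemma ext_cases (A : Fin 9 → Fin 3) (g : ℕ) : ext A g = 0 ∨ ext A g = 1 ∨ ext A g = 2 := by
  rw [ext]
  split_ifs with h
  · have := (A ⟨g, h⟩).2
    omega
  · exact Or.inl rfl

lemma testBit_511 (g : ℕ) (hg : g < 9) : (511 : ℕ).testBit g = true := by
  interval_cases g <;> rfl

lemma viol (A : Fin 9 → Fin 3) (i j k : Fin 3) (hij : i ≠ j) (hik : i ≠ k) (hjk : j ≠ k)
    (h : sk (ext A) i 9 < nu i (mk (ext A) k 9)) :
    ∃ T ⊆ Finset.univ.filter (fun g => A g = i ∨ A g = j),
      (∑ g ∈ Finset.univ.filter (fun g => A g = i), w i g) < ∑ g ∈ T, w i g ∧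
      (∑ g ∈ Finset.univ.filter (fun g => A g = i), w i g) <
        ∑ g ∈ Finset.univ.filter (fun g => A g = i ∨ A g = j) \ T, w i g := by
  set z := mk (ext A) k 9 with hz
  have hz512 : z < 512 := mk_lt (ext A) k 9
  have hc := certAll_spec 512 cert_ok z hz512 i i.2
  rw [cert1, Bool.and_eq_true, Bool.and_eq_true, Nat.beq_eq, Nat.ble_eq, Nat.ble_eq] at hc
  obtain ⟨c1, c2, c3⟩ := hc
  have hs : (∑ g ∈ Finset.univ.filter (fun g => A g = i), w i g) = sk (ext A) i 9 := by
    rw [Finset.sum_filter, sk, ← Fin.sum_univ_eq_sum_range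
      (fun g => if ext A g = i then w i g else 0)]
    apply Finset.sum_congr rfl
    intro g _
    rw [ext_fin]
    simp [Fin.ext_iff]
  have hbit : ∀ g : Fin 9, z.testBit g = decide (A g = k) := by
    intro g
    rw [hz, mk_testBit _ _ _ _ g.2, ext_fin]
    simp [Fin.ext_iff]
  have hdis : ∀ g : Fin 9, (tt i z).testBit g = true → A g ≠ k := by
    intro g hg hAk
    have h1 : (tt i z &&& z).testBit g = true := by
      rw [Nat.testBit_and, hg, hbit, hAk]
      simp
    rw [c1] at h1
    simp at h1
  have htri : ∀ a : Fin 3, a ≠ k → a = i ∨ a = j := by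
    intro a ha
    have := a.2
    have := i.2
    have := j.2
    have := k.2
    simp only [ne_eq, Fin.ext_iff] at *
    omega
  refine ⟨Finset.univ.filter (fun g => (tt i z).testBit g = true), ?_, ?_, ?_⟩
  · intro g hg
    rw [Finset.mem_filter] at hg ⊢
    exact ⟨Finset.mem_univ _, htri _ (hdis g hg.2)⟩
  · rw [hs]
    refine lt_of_lt_of_le h (c2.trans (le_of_eq ?_))
    rw [valR_eq, Finset.sum_filter, ← Fin.sum_univ_eq_sum_range
      (fun g => if (tt i z).testBit g = true then w i g else 0)]
  · rw [hs]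
    refine lt_of_lt_of_le h (c3.trans (le_of_eq ?_))
    have hset : Finset.univ.filter (fun g => A g = i ∨ A g = j) \
        Finset.univ.filter (fun g : Fin 9 => (tt i z).testBit g = true) =
        Finset.univ.filter (fun g : Fin 9 => (511 ^^^ (z ||| tt i z)).testBit g = true) := by
      ext g
      rw [Finset.mem_sdiff, Finset.mem_filter, Finset.mem_filter, Finset.mem_filter,
        Nat.testBit_xor, Nat.testBit_or, testBit_511 g g.2, hbit]
      simp only [Finset.mem_univ, true_and]
      constructor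
      · rintro ⟨h1, h2⟩
        have h3 : A g ≠ k := by
          rcases h1 with h1 | h1
          · rw [h1]; exact hik
          · rw [h1]; exact hjk
        simp [h3, h2]
      · intro h1
        have h2 : A g ≠ k ∧ ¬ (tt i z).testBit g = true := by
          constructor
          · intro h3
            simp [h3] at h1
          · intro h3
            simp [h3] at h1
        exact ⟨htri _ h2.1, h2.2⟩
    rw [hset, valR_eq, Finset.sum_filter, ← Fin.sum_univ_eq_sum_range
      (fun g => if (511 ^^^ (z ||| tt i z)).testBit g = true then w i g else 0)]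

theorem no_pmms (A : Fin 9 → Fin 3) : ∃ i j : Fin 3, i ≠ j ∧
    ∃ T ⊆ Finset.univ.filter (fun g => A g = i ∨ A g = j),
      (∑ g ∈ Finset.univ.filter (fun g => A g = i), w i g) < ∑ g ∈ T, w i g ∧
      (∑ g ∈ Finset.univ.filter (fun g => A g = i), w i g) <
        ∑ g ∈ Finset.univ.filter (fun g => A g = i ∨ A g = j) \ T, w i g := by
  have h := chk_spec (ext A) (ext_cases A) 9 0 0 0 0 0 0 chk_ok
  simp only [zero_add] at h
  simp only [tst, Bool.or_eq_true, Nat.blt_eq] at h
  rcases h with h | h | h | h | h | h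
  · exact ⟨0, 1, by decide, viol A 0 1 2 (by decide) (by decide) (by decide) h⟩
  · exact ⟨0, 2, by decide, viol A 0 2 1 (by decide) (by decide) (by decide) h⟩
  · exact ⟨1, 0, by decide, viol A 1 0 2 (by decide) (by decide) (by decide) h⟩
  · exact ⟨1, 2, by decide, viol A 1 2 0 (by decide) (by decide) (by decide) h⟩
  · exact ⟨2, 0, by decide, viol A 2 0 1 (by decide) (by decide) (by decide) h⟩
  · exact ⟨2, 1, by decide, viol A 2 1 0 (by decide) (by decide) (by decide) h⟩

theorem main : ¬ (∀ (n m : ℕ) (v : Fin n → Fin m → ℝ), 0 < n → (∀ i g, 0 ≤ v i g) →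
      ∃ A : Fin m → Fin n, ∀ i j : Fin n, i ≠ j →
        ∀ T : Finset (Fin m),
          T ⊆ Finset.univ.filter (fun g => A g = i ∨ A g = j) →
          min (∑ g ∈ T, v i g)
              (∑ g ∈ (Finset.univ.filter (fun g => A g = i ∨ A g = j)) \ T, v i g)
            ≤ ∑ g ∈ Finset.univ.filter (fun g => A g = i), v i g) := by
  intro hall
  obtain ⟨A, hA⟩ := hall 3 9 (fun i g => (w i g : ℝ)) (by norm_num)
    (fun i g => Nat.cast_nonneg _)
  obtain ⟨i, j, hij, T, hT, h1, h2⟩ := no_pmms A
  have h3 := hA i j hij T hT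
  simp only [← Nat.cast_sum] at h3
  rcases min_le_iff.mp h3 with h4 | h4
  · have h5 := Nat.cast_le.mp h4
    omega
  · have h5 := Nat.cast_le.mp h4
    omega

end Pool.Agent.PMMS
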